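import Pool.Agent.PSS.StmtsS5

/-!
Squad PSS, row NQB (helper19).
-/

open scoped BigOperators

noncomputable section

namespace Pool.Agent.PSS.S5.H19

open Pool.Agent.PSS Pool.Agent.PSS.S5
open Pool.Agent.PFC (tw IsTv)
open Pool.Agent.PFD.D2b (FrR)

/-- A sum of an invariant function over a set on which an `ℓ`-group acts without fixed points. -/
theorem sum_zero (ℓ : ℕ) [Fact ℓ.Prime] {F M X G : Type} [Field F] [CharP F ℓ] [AddCommGroup M]
    [Module F M] [Group G] [Fintype X] [MulAction G X] (hG : IsPGroup ℓ G) (f : X → M)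
    (hf : ∀ (g : G) x, f (g • x) = f x) (hfix : ∀ x : X, ∃ g : G, g • x ≠ x) :
    ∑ x, f x = 0 := by
  classical
  have hsum : ∑ x, f x = ∑ t ∈ Finset.univ.image f, ∑ x with f x = t, f x :=
    (Finset.sum_fiberwise_of_maps_to (fun x _ => Finset.mem_image_of_mem f (Finset.mem_univ x))
      f).symm
  rw [hsum]
  refine Finset.sum_eq_zero fun t _ => ?_
  have h1 : ∑ x with f x = t, f x = ∑ x : X with f x = t, t := by
    refine Finset.sum_congr rfl fun x hx => ?_
    exact (Finset.mem_filter.1 hx).2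
  rw [h1, Finset.sum_const]
  -- the action on the fibre
  let Y : Type := {x : X // f x = t}
  let _ : MulAction G Y :=
    { smul := fun g y => ⟨g • y.1, by rw [hf, y.2]⟩
      one_smul := fun y => Subtype.ext (one_smul G y.1)
      mul_smul := fun g h y => Subtype.ext (mul_smul g h y.1) }
  have _ : Finite Y := inferInstanceAs (Finite {x : X // f x = t})
  have hmod := hG.card_modEq_card_fixedPoints Y
  have hempty : IsEmpty (MulAction.fixedPoints G Y) := by
    refine ⟨fun y => ?_⟩
    obtain ⟨g, hg⟩ := hfix y.1.1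
    exact hg (congrArg Subtype.val (y.2 g))
  have hf0 : Nat.card (MulAction.fixedPoints G Y) = 0 := Nat.card_of_isEmpty
  rw [hf0] at hmod
  have hcard : Nat.card Y = (Finset.univ.filter fun x => f x = t).card := by
    show Nat.card {x : X // f x = t} = _
    rw [Nat.card_eq_fintype_card, Fintype.card_subtype]
  rw [hcard] at hmod
  have hdvd : ℓ ∣ (Finset.univ.filter fun x => f x = t).card := (Nat.modEq_zero_iff_dvd).1 hmod
  have hz : (((Finset.univ.filter fun x => f x = t).card : ℕ) : F) = 0 :=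
    (CharP.cast_eq_zero_iff F ℓ _).2 hdvd
  rw [← Nat.cast_smul_eq_nsmul F, hz, zero_smul]

theorem nqb : NqbStmt := by
  classical
  intro ℓ _ F V A A' _ _ _ _ _ _ _ _ α Q _ α' p hV hQ a ha
  have hpc : ∀ (x : V) (m : A), p (cw F α x m) = cw F α' (x : V ⧸ Q) (p m) := by
    intro x m
    show p (α x * (m * α x⁻¹)) = α' (x : V ⧸ Q) * (p m * α' (x : V ⧸ Q)⁻¹)
    rw [map_mul, map_mul, hQ.cov, hQ.cov]
    rfl
  have hcq : ∀ q ∈ Q, ∀ m : A, cw F α q m = m := by
    intro q hq m
    show α q * (m * α q⁻¹) = m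
    rw [← mul_assoc, hQ.cen q hq m, mul_assoc, ← map_mul, mul_inv_cancel, map_one, mul_one]
  refine Submodule.span_induction (p := fun a _ => p a ∈ BKR (cw F α') ⊤) ?_ ?_ ?_ ?_ ha
  · rintro _ ⟨P, S, m, hP, hS, hm, rfl⟩
    rw [map_sum]
    by_cases hQP : Q ≤ P
    · have huq : ∀ v w : V, w ∈ P → ((w : V) : V ⧸ Q) = (v : V ⧸ Q) → v ∈ P := by
        intro v w hw h
        have h1 : w⁻¹ * v ∈ Q := QuotientGroup.eq.1 h
        have h2 := P.mul_mem hw (hQP h1)
        rwa [mul_inv_cancel_left] at h2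
      refine Submodule.subset_span
        ⟨P.map (QuotientGroup.mk' Q), S.image (fun x : V => (x : V ⧸ Q)), p m, ?_, ⟨?_, ?_⟩, ?_, ?_⟩
      · rw [lt_top_iff_ne_top]
        intro htop
        apply ne_of_lt hP
        rw [eq_top_iff]
        intro v _
        have h1 : (v : V ⧸ Q) ∈ P.map (QuotientGroup.mk' Q) := by
          rw [htop]
          exact Subgroup.mem_top _
        obtain ⟨w, hw, hwv⟩ := Subgroup.mem_map.1 h1
        exact huq v w hw hwv
      · intro s _
        exact Subgroup.mem_top _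
      · intro v' _
        obtain ⟨v, rfl⟩ := QuotientGroup.mk_surjective v'
        obtain ⟨s, ⟨hsS, hsP⟩, hu⟩ := hS.2 v (Subgroup.mem_top v)
        refine ⟨(s : V ⧸ Q), ⟨Finset.mem_image.2 ⟨s, hsS, rfl⟩,
          Subgroup.mem_map.2 ⟨s⁻¹ * v, hsP, rfl⟩⟩, ?_⟩
        rintro t' ⟨ht', htP⟩
        obtain ⟨t, htS, rfl⟩ := Finset.mem_image.1 ht'
        obtain ⟨w, hw, hwv⟩ := Subgroup.mem_map.1 htP
        have h1 : t⁻¹ * v ∈ P := huq (t⁻¹ * v) w hw hwv
        rw [hu t ⟨htS, h1⟩]
      · intro h' hh'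
        obtain ⟨h, hh, rfl⟩ := Subgroup.mem_map.1 hh'
        have h1 : p (cw F α h m) = p m := by rw [hm h hh]
        rw [hpc] at h1
        exact h1
      · rw [Finset.sum_image]
        · refine Finset.sum_congr rfl fun x _ => hpc x m
        · intro x hx y hy hxy
          have h1 : x⁻¹ * y ∈ P := hQP (QuotientGroup.eq.1 hxy)
          obtain ⟨s, -, hu⟩ := hS.2 y (Subgroup.mem_top y)
          rw [hu x ⟨hx, h1⟩, hu y ⟨hy, by rw [inv_mul_cancel]; exact P.one_mem⟩]
    · have h0 : ∑ x ∈ S, cw F α x m = 0 := by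
        obtain ⟨q, hqQ, hqP⟩ := Set.not_subset.1 hQP
        have _ : Fintype (V ⧸ P) := Fintype.ofFinite _
        have hval : ∀ x : V, cw F α ((x : V ⧸ P).out) m = cw F α x m := by
          intro x
          obtain ⟨h, hh⟩ := QuotientGroup.mk_out_eq_mul P x
          rw [hh, map_mul]
          show cw F α x (cw F α (h : V) m) = _
          rw [hm h h.2]
        have h1 : ∑ x ∈ S, cw F α x m = ∑ y : V ⧸ P, cw F α y.out m := by
          refine Finset.sum_bij (fun x _ => (x : V ⧸ P)) (fun _ _ => Finset.mem_univ _) ?_ ?_ ?_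
          · intro x hx y hy hxy
            have h1 : x⁻¹ * y ∈ P := QuotientGroup.eq.1 hxy
            obtain ⟨s, -, hu⟩ := hS.2 y (Subgroup.mem_top y)
            rw [hu x ⟨hx, h1⟩, hu y ⟨hy, by rw [inv_mul_cancel]; exact P.one_mem⟩]
          · intro y _
            obtain ⟨v, rfl⟩ := QuotientGroup.mk_surjective y
            obtain ⟨s, ⟨hsS, hsP⟩, -⟩ := hS.2 v (Subgroup.mem_top v)
            exact ⟨s, hsS, QuotientGroup.eq.2 hsP⟩
          · intro x _
            exact (hval x).symm
        rw [h1]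
        refine sum_zero ℓ (F := F) (G := Q) (hV.to_subgroup Q) _ ?_ ?_
        · intro g y
          obtain ⟨x, rfl⟩ := QuotientGroup.mk_surjective y
          have h2 : g • ((x : V) : V ⧸ P) = (((g : V) * x : V) : V ⧸ P) := rfl
          rw [h2, hval, hval, map_mul]
          exact hcq g g.2 _
        · intro y
          obtain ⟨x, rfl⟩ := QuotientGroup.mk_surjective y
          refine ⟨⟨q, hqQ⟩, fun h => hqP ?_⟩
          have h2 : (((q * x : V)) : V ⧸ P) = (x : V ⧸ P) := h
          have h3 : (q * x)⁻¹ * x ∈ P := QuotientGroup.eq.1 h2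
          have h4 : (q * x)⁻¹ * x = q⁻¹ := by
            rw [mul_inv_rev, mul_comm x⁻¹, mul_assoc, inv_mul_cancel, mul_one]
          rw [h4] at h3
          exact (P.inv_mem_iff).1 h3
      rw [← map_sum, h0, map_zero]
      exact Submodule.zero_mem _
  · rw [map_zero]
    exact Submodule.zero_mem _
  · intro x y _ _ hx hy
    rw [map_add]
    exact Submodule.add_mem _ hx hy
  · intro r x _ hx
    rw [map_smul]
    exact Submodule.smul_mem _ r hx

end Pool.Agent.PSS.S5.H19
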