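import Pool.Agent.PSS.StmtsS5

/-!
Squad PSS, row NQS (helper19).
-/

open scoped BigOperators

noncomputable section

namespace Pool.Agent.PSS.S5.H19

open Pool.Agent.PSS Pool.Agent.PSS.S5
open Pool.Agent.PFC (tw IsTv)
open Pool.Agent.PFD.D2b (FrR)

/-- A set which meets every orbit of `Q × 1` once and is stable under the diagonal. -/
theorem exists_slice {V Ω : Type} [CommGroup V] [MulAction (V × V) Ω] (Q : Subgroup V)
    (hst : ∀ ω : Ω, ∃ S : Subgroup V, Q ≤ S ∧
      MulAction.stabilizer (V × V) ω = tw (MonoidHom.id V) S) :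
    ∃ T : Set Ω, (∀ (v : V), ∀ ω ∈ T, ((v, v) : V × V) • ω ∈ T) ∧
      (∀ ω : Ω, ∃ q ∈ Q, ((q, 1) : V × V) • ω ∈ T) ∧
      ∀ (q : V), ∀ ω ∈ T, q ∈ Q → ((q, 1) : V × V) • ω ∈ T → q = 1 := by
  let H : Subgroup (V × V) :=
    { carrier := {h | h.1 * h.2⁻¹ ∈ Q}
      one_mem' := by
        show (1 : V) * 1⁻¹ ∈ Q
        rw [inv_one, mul_one]
        exact Q.one_mem
      mul_mem' := by
        intro a b ha hb
        show a.1 * b.1 * (a.2 * b.2)⁻¹ ∈ Q
        have h : a.1 * b.1 * (a.2 * b.2)⁻¹ = (a.1 * a.2⁻¹) * (b.1 * b.2⁻¹) := by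
          rw [mul_inv, mul_mul_mul_comm]
        rw [h]
        exact Q.mul_mem ha hb
      inv_mem' := by
        intro a ha
        show a.1⁻¹ * (a.2⁻¹)⁻¹ ∈ Q
        rw [← mul_inv]
        exact Q.inv_mem ha }
  let r : Ω → Ω := fun ω => (Quotient.mk (MulAction.orbitRel H Ω) ω).out
  have hr1 : ∀ ω : Ω, ∃ h ∈ H, ω = h • r ω := by
    intro ω
    have h := Quotient.mk_out (s := MulAction.orbitRel H Ω) ω
    obtain ⟨g, hg⟩ := MulAction.orbitRel_apply.1 ((MulAction.orbitRel H Ω).symm h)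
    exact ⟨g.1, g.2, hg.symm⟩
  have hr2 : ∀ h ∈ H, ∀ ω : Ω, r (h • ω) = r ω := by
    intro h hh ω
    have e : Quotient.mk (MulAction.orbitRel H Ω) (h • ω) =
        Quotient.mk (MulAction.orbitRel H Ω) ω :=
      Quotient.sound (MulAction.orbitRel_apply.2 ⟨⟨h, hh⟩, rfl⟩)
    show (Quotient.mk (MulAction.orbitRel H Ω) (h • ω)).out = _
    rw [e]
  have hdiag : ∀ v : V, ((v, v) : V × V) ∈ H := by
    intro v
    show v * v⁻¹ ∈ Q
    rw [mul_inv_cancel]
    exact Q.one_mem
  have hq : ∀ q ∈ Q, ((q, 1) : V × V) ∈ H := by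
    intro q hq
    show q * 1⁻¹ ∈ Q
    rw [inv_one, mul_one]
    exact hq
  refine ⟨{ω | ∃ v : V, ω = ((v, v) : V × V) • r ω}, ?_, ?_, ?_⟩
  · rintro v ω ⟨w, hw⟩
    refine ⟨v * w, ?_⟩
    rw [hr2 _ (hdiag v)]
    conv_lhs => rw [hw]
    rw [← mul_smul]
    rfl
  · intro ω
    obtain ⟨⟨u, v⟩, hh, hω⟩ := hr1 ω
    have hQ : u * v⁻¹ ∈ Q := hh
    refine ⟨(u * v⁻¹)⁻¹, Q.inv_mem hQ, v, ?_⟩
    rw [hr2 _ (hq _ (Q.inv_mem hQ))]
    conv_lhs => rw [hω]
    rw [← mul_smul]
    congr 1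
    refine Prod.ext ?_ ?_
    · show (u * v⁻¹)⁻¹ * u = v
      rw [mul_inv_rev, inv_inv, mul_assoc, inv_mul_cancel, mul_one]
    · show 1 * v = v
      rw [one_mul]
  · rintro q ω ⟨v, hv⟩ hqQ ⟨w, hw⟩
    rw [hr2 _ (hq _ hqQ)] at hw
    have hw1 : ((q, 1) : V × V) • ((v, v) : V × V) • r ω = ((w, w) : V × V) • r ω := by
      rw [← hv]
      exact hw
    obtain ⟨S, -, hS⟩ := hst (r ω)
    have h1 : (((w, w) : V × V)⁻¹ * (((q, 1) : V × V) * ((v, v) : V × V))) ∈
        MulAction.stabilizer (V × V) (r ω) := by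
      rw [MulAction.mem_stabilizer_iff, mul_smul, mul_smul, hw1, ← mul_smul, inv_mul_cancel,
        one_smul]
    rw [hS] at h1
    obtain ⟨s, hs, hs2⟩ := Subgroup.mem_map.1 h1
    have e1 : s = w⁻¹ * (q * v) := congrArg Prod.fst hs2
    have e2 : s = w⁻¹ * (1 * v) := congrArg Prod.snd hs2
    rw [e1] at e2
    exact mul_right_cancel (mul_left_cancel e2)

theorem nqs : NqsStmt := by
  classical
  intro F V A A' Ω _ _ _ _ _ _ _ _ _ α b c Q _ α' p hQ hFr hst a' ha'
  obtain ⟨a, rfl⟩ := hQ.sur a'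
  have hcq : ∀ q : Q, ∀ m : A, α q * m = m * α q := fun q m => hQ.cen q q.2 m
  set σ : A := ∑ q : Q, α q with hσ
  have hσc : ∀ m : A, σ * m = m * σ := by
    intro m
    rw [hσ, Finset.sum_mul, Finset.mul_sum]
    exact Finset.sum_congr rfl fun q _ => hcq q m
  have hqσ : ∀ q : Q, α q * σ = σ := by
    intro q
    rw [hσ, Finset.mul_sum]
    refine (Finset.sum_congr rfl fun x _ => ?_).trans
      (Equiv.sum_comp (Equiv.mulLeft q) (fun x : Q => α (x : V)))
    rw [← map_mul]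
    rfl
  obtain ⟨l, hl0⟩ : ∃ l, l = σ * a := ⟨_, rfl⟩
  -- `l` commutes with the diagonal
  have hl : ∀ v : V, α v * l * α v⁻¹ = l := by
    intro v
    have h1 : p (α v * a * α v⁻¹ - a) = 0 := by
      have h2 := ha' (v : V ⧸ Q) (Subgroup.mem_top _)
      have h3 : α' (v : V ⧸ Q) * (p a * α' (v : V ⧸ Q)⁻¹) = p a := h2
      rw [map_sub, map_mul, map_mul, hQ.cov, hQ.cov, mul_assoc]
      exact sub_eq_zero.2 h3
    have h4 : σ * (α v * a * α v⁻¹) = σ * a := by
      have h5 := (hQ.ker _).1 h1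
      rw [mul_sub, sub_eq_zero] at h5
      exact h5
    rw [hl0]
    calc α v * (σ * a) * α v⁻¹ = (α v * σ) * a * α v⁻¹ := by rw [← mul_assoc]
      _ = σ * (α v * a * α v⁻¹) := by
          rw [← hσc]
          simp only [mul_assoc]
      _ = σ * a := h4
  have hql : ∀ q : Q, α q * l = l := by
    intro q
    rw [hl0, ← mul_assoc, hqσ]
  have hlH : ∀ (q : Q) (v : V), bw F α (((q : V) * v, v) : V × V) l = l := by
    intro q v
    show α ((q : V) * v) * (l * α v⁻¹) = l
    rw [map_mul, mul_assoc, ← mul_assoc (α v), hl v, hql]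
  have hcc : ∀ (q : Q) (v : V) (ω : Ω), c ((((q : V) * v, v) : V × V) • ω) l = c ω l := by
    intro q v ω
    have h := hFr.2.1 (((q : V) * v, v) : V × V) ω l
    rw [hlH] at h
    exact h
  obtain ⟨T, hT1, hT2, hT3⟩ := exists_slice Q hst
  let T' : Finset Ω := Finset.univ.filter fun ω => ω ∈ T
  have hmT : ∀ ω, ω ∈ T' ↔ ω ∈ T := by
    intro ω
    simp [T']
  refine ⟨∑ ω ∈ T', c ω l • b ω, ?_, ?_⟩
  · intro v _
    show bw F α (v, v) _ = _
    rw [map_sum]
    refine Finset.sum_bij' (fun ω _ => ((v, v) : V × V) • ω) (fun ω _ => ((v⁻¹, v⁻¹) : V × V) • ω)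
      ?_ ?_ ?_ ?_ ?_
    · intro ω hω
      exact (hmT _).2 (hT1 v ω ((hmT _).1 hω))
    · intro ω hω
      exact (hmT _).2 (hT1 v⁻¹ ω ((hmT _).1 hω))
    · intro ω _
      rw [← mul_smul]
      have e : (((v⁻¹, v⁻¹) : V × V) * (v, v)) = 1 := by
        refine Prod.ext ?_ ?_
        · exact inv_mul_cancel v
        · exact inv_mul_cancel v
      rw [e, one_smul]
    · intro ω _
      rw [← mul_smul]
      have e : (((v, v) : V × V) * (v⁻¹, v⁻¹)) = 1 := by
        refine Prod.ext ?_ ?_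
        · exact mul_inv_cancel v
        · exact mul_inv_cancel v
      rw [e, one_smul]
    · intro ω _
      have h := hcc 1 v ω
      rw [OneMemClass.coe_one, one_mul] at h
      rw [map_smul, h, hFr.1]
  · have hz : p (∑ ω ∈ T', c ω l • b ω - a) = 0 := by
      rw [hQ.ker, mul_sub, sub_eq_zero]
      have h1 : ∑ x ∈ (Finset.univ : Finset Q) ×ˢ T',
          c (((x.1 : V), (1 : V)) • x.2) l • b (((x.1 : V), (1 : V)) • x.2) =
          ∑ ω, c ω l • b ω := by
        refine Finset.sum_bij (fun x _ => (((x.1 : V), (1 : V)) : V × V) • x.2)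
          (fun _ _ => Finset.mem_univ _) ?_ ?_ ?_
        · rintro ⟨q, ω⟩ hx ⟨q', ω'⟩ hx' h
          have hω : ω ∈ T := (hmT _).1 (Finset.mem_product.1 hx).2
          have hω' : ω' ∈ T := (hmT _).1 (Finset.mem_product.1 hx').2
          have h' : (((q : V), (1 : V)) : V × V) • ω = (((q' : V), (1 : V)) : V × V) • ω' := h
          have h2 : ((((q' : V)⁻¹ * (q : V)), (1 : V)) : V × V) • ω = ω' := by
            have e : ((((q' : V)⁻¹ * (q : V)), (1 : V)) : V × V) =
                (((q' : V), (1 : V)) : V × V)⁻¹ * (((q : V), (1 : V)) : V × V) := by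
              refine Prod.ext rfl ?_
              show (1 : V) = 1⁻¹ * 1
              rw [inv_one, mul_one]
            rw [e, mul_smul, h', ← mul_smul, inv_mul_cancel, one_smul]
          have h3 : (q' : V)⁻¹ * (q : V) = 1 := by
            refine hT3 _ ω hω (Q.mul_mem (Q.inv_mem q'.2) q.2) ?_
            rw [h2]
            exact hω'
          have h4 : q = q' := Subtype.ext (inv_mul_eq_one.1 h3).symm
          subst h4
          rw [h3] at h2
          have h5 : (((1 : V), (1 : V)) : V × V) • ω = ω := one_smul (V × V) ω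
          rw [h5] at h2
          rw [h2]
        · intro ω _
          obtain ⟨q, hq, hqT⟩ := hT2 ω
          refine ⟨(⟨q⁻¹, Q.inv_mem hq⟩, ((q, 1) : V × V) • ω),
            Finset.mem_product.2 ⟨Finset.mem_univ _, (hmT _).2 hqT⟩, ?_⟩
          show ((q⁻¹, 1) : V × V) • ((q, 1) : V × V) • ω = ω
          rw [← mul_smul]
          have e : (((q⁻¹, 1) : V × V) * (q, 1)) = 1 := by
            refine Prod.ext ?_ ?_
            · exact inv_mul_cancel q
            · exact one_mul 1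
          rw [e, one_smul]
        · intro x _
          rfl
      rw [hFr.2.2, Finset.sum_product] at h1
      have h6 : (∑ q : Q, α (q : V)) * (∑ ω ∈ T', c ω l • b ω) = l := by
        refine Eq.trans ?_ h1
        rw [Finset.sum_mul]
        refine Finset.sum_congr rfl fun q _ => ?_
        rw [Finset.mul_sum]
        refine Finset.sum_congr rfl fun ω _ => ?_
        have h2 := hcc q 1 ω
        rw [mul_one] at h2
        have h3 : b ((((q : V), (1 : V)) : V × V) • ω) = α q * b ω := by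
          rw [hFr.1]
          show α (q : V) * (b ω * α (1 : V)⁻¹) = _
          rw [inv_one, map_one, mul_one]
        show α (q : V) * (c ω l • b ω) = c (((q : V), (1 : V)) • ω) l •
          b (((q : V), (1 : V)) • ω)
        rw [h2, h3, mul_smul_comm]
      rw [h6, hl0]
    rw [map_sub, sub_eq_zero] at hz
    exact hz

end Pool.Agent.PSS.S5.H19
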