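import Pool.Agent.PSS.StmtsS2

/-!
Squad PSS, row UNT (helper19).
-/

open scoped BigOperators

noncomputable section

namespace Pool.Agent.PSS.S2.H19

open Pool.Agent.PSS Pool.Agent.PSS.S2
open Pool.Agent.PFC (tw IsTv)
open Pool.Agent.PFD.D2b (FrR)

theorem unt (hRtw : RtwStmt) (hTvc : TvcStmt) (hRad : RadStmt) (hDgz : DgzStmt)
    (hRtc : Pool.Agent.PSS.RtcStmt) : UntStmt := by
  intro ℓ _ F V E A K Ω _ _ _ _ _ _ _ _ _ _ _ _ φ α z lam x y b c χ N u hp hRF hPr hu hCn hχ
    hbr w
  have hcomm : ∀ v w : V, α v * α w = α w * α v := by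
    intro v w
    rw [← map_mul, ← map_mul, mul_comm]
  have hcen : ∀ w : V, ∀ a', rt x y (α w) * a' = a' * rt x y (α w) := by
    intro w a'
    exact ((hRtc F V A K K α lam x y hRF).1 (α w) (fun v => hcomm v w) a').symm
  have hcen1 : ∀ a', rt x y (1 : A) * a' = a' * rt x y 1 := by
    intro a'
    have h := hcen 1 a'
    rw [map_one] at h
    exact h
  -- the derivation
  have hD : ∀ a b : A, Gz α z x y N (a * b) = Gz α z x y N a * b + a * Gz α z x y N b := by
    intro a b
    exact (cg_zero _ _).1 (hDgz F V A K 0 α z lam x y χ N hRF hCn a b)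
  have hGc : ∀ w : V, ∀ a', Gz α z x y N (rt x y (α w)) * a' =
      a' * Gz α z x y N (rt x y (α w)) := by
    intro w a'
    have h1 := hD (rt x y (α w)) a'
    have h2 := hD a' (rt x y (α w))
    rw [hcen w a', h2, ← hcen w (Gz α z x y N a')] at h1
    -- G a' * rt + a' * G rt = G rt * a' + rt * G a'
    have h3 : Gz α z x y N a' * rt x y (α w) = rt x y (α w) * Gz α z x y N a' := (hcen w _).symm
    rw [← h3, add_comm] at h1
    exact (add_right_cancel h1).symm
  have hCVm : ∀ a d : A, CV α a → (∀ a', d * a' = a' * d) → CV α (a * d) := by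
    intro a d ha hd v
    rw [← mul_assoc, ha v, mul_assoc, ← hd (α v), mul_assoc]
  constructor
  · refine hRad ℓ F V E A K Ω φ α lam x y b c _ hp hRF hPr ?_ ?_ hbr
    · intro a'
      rw [sub_mul, mul_sub, hcen w, hcen1]
    · intro a ha
      rw [mul_sub, map_sub, (hRtw ℓ F V E A K Ω φ α lam x y b c a w hp hRF hPr ha).1, sub_self]
  · refine hRad ℓ F V E A K Ω φ α lam x y b c _ hp hRF hPr ?_ ?_ hbr
    · intro a'
      have e1 : rt x y (α z⁻¹) * rt x y (α w) * a' = a' * (rt x y (α z⁻¹) * rt x y (α w)) := by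
        rw [mul_assoc, hcen w, ← mul_assoc, hcen z⁻¹, mul_assoc]
      have e2 : rt x y (1 : A) * rt x y 1 * a' = a' * (rt x y 1 * rt x y 1) := by
        rw [mul_assoc, hcen1, ← mul_assoc, hcen1, mul_assoc]
      rw [sub_mul, mul_sub, add_mul, mul_add, e1, e2, hGc w]
    · intro a ha
      have k1 : lam (sg α * (a * rt x y (α w)) * rt x y (α z⁻¹)) =
          lam (sg α * (a * rt x y (α w)) * rt x y 1) :=
        (hRtw ℓ F V E A K Ω φ α lam x y b c (a * rt x y (α w)) z⁻¹ hp hRF hPr
          (hCVm a _ ha (hcen w))).1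
      have k2 : lam (sg α * (a * rt x y 1) * rt x y (α w)) =
          lam (sg α * (a * rt x y 1) * rt x y 1) :=
        (hRtw ℓ F V E A K Ω φ α lam x y b c (a * rt x y 1) w hp hRF hPr
          (hCVm a _ ha hcen1)).1
      have k3 : lam (sg α * a * Gz α z x y N (rt x y (α w))) = 0 :=
        hTvc ℓ F V E A K Ω φ α z lam x y b c χ N u a (rt x y (α w)) hp hRF hPr hu hCn hχ ha
          (hcen w)
      have m1 : sg α * a * (rt x y (α z⁻¹) * rt x y (α w)) =
          sg α * (a * rt x y (α w)) * rt x y (α z⁻¹) := by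
        rw [hcen z⁻¹ (rt x y (α w))]
        simp only [mul_assoc]
      have m2 : sg α * (a * rt x y (α w)) * rt x y 1 = sg α * (a * rt x y 1) * rt x y (α w) := by
        simp only [mul_assoc]
        rw [hcen w (rt x y 1)]
      have m3 : sg α * (a * rt x y 1) * rt x y 1 = sg α * a * (rt x y 1 * rt x y 1) := by
        simp only [mul_assoc]
      rw [mul_sub, mul_add, map_sub, map_add, k3, m1, k1, m2, k2, m3, add_zero, sub_self]

end Pool.Agent.PSS.S2.H19
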