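import Pool.Agent.PSS.StmtsS1a

/-!
Squad PSS, row UZL (helper19).
-/

open scoped BigOperators

noncomputable section

namespace Pool.Agent.PSS.H19

open Pool.Agent.PSS
open Pool.Agent.PFD.D2 (Cdv FibG)
open Pool.Agent.PFD.D2b (FrR)
open Finset

theorem uzl (hCSU : CsuStmt) (hUNJ : UnjStmt) : UzlStmt := by
  intro R F V A A' K Ω _ _ _ c _ _ _ _ _ _ _ _ _ _ _ α lam x y b cc f α' lam' x' y' b' cc' u
    hL hu
  have hκπ : c.κ c.π = 0 := (c.ker _).2 ⟨1, by rw [mul_one]⟩
  have hunit : ∀ r, IsUnit (1 + c.π * r) := by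
    intro r
    apply c.loc
    rw [map_add, map_mul, hκπ, zero_mul, add_zero, map_one]
    exact one_ne_zero
  have hsm : ∀ (r : R) (a : A'), f.q (r • a) = c.κ r • f.q a := by
    intro r a
    rw [Algebra.smul_def, map_mul, f.sc, ← Algebra.smul_def]
  have hπ0 : ∀ a : A', f.q (c.π • a) = 0 := by
    intro a
    rw [hsm, hκπ, zero_smul]
  have hqrt : f.q (rt x' y' 1) = rt x y 1 := by
    unfold rt
    rw [map_sum]
    refine sum_congr rfl fun i _ => ?_
    rw [map_mul, map_mul, map_one, hL.qx, hL.qy]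
  -- (1)
  have h1 : ∃ u' : A', u' * rt x' y' 1 = 1 := by
    obtain ⟨u₁, hu₁⟩ := f.surj u
    have hq : f.q (u₁ * rt x' y' 1 - 1) = 0 := by
      rw [map_sub, map_mul, hu₁, hqrt, hu, map_one, sub_self]
    obtain ⟨d, hd⟩ := f.ker _ hq
    have hbij := hUNJ R A' c.π hunit (LinearMap.mulRight R (u₁ * rt x' y' 1)) (by
      intro a
      refine ⟨a * d, ?_⟩
      have e1 : a * (u₁ * rt x' y' 1) - a = a * (u₁ * rt x' y' 1 - 1) := by
        rw [mul_sub, mul_one]
      rw [LinearMap.mulRight_apply, e1, hd, mul_smul_comm])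
    obtain ⟨t, ht⟩ := hbij.2 1
    refine ⟨t * u₁, ?_⟩
    rw [LinearMap.mulRight_apply] at ht
    rw [mul_assoc, ht]
  -- (2)
  have hqbw : ∀ (h : V × V) (a : A'), f.q (bw R α' h a) = bw F α h (f.q a) := by
    intro h a
    show f.q (α' h.1 * (a * α' h.2⁻¹)) = α h.1 * (f.q a * α h.2⁻¹)
    rw [map_mul, map_mul, hL.qa, hL.qa]
  have h2 : ∀ X : Subgroup (V × V), ∀ a ∈ FxR (bw F α) X, ∃ a' ∈ FxR (bw R α') X,
      f.q a' = a := by
    intro X a ha
    choose s hs using c.surj
    obtain ⟨a₁, ha₁⟩ := f.surj a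
    have hsum : ∑ ω, cc ω a • b ω = a := by
      have h := congrArg f.q (hL.fr.2.2 a₁)
      rw [map_sum, ha₁] at h
      refine Eq.trans (sum_congr rfl fun ω _ => ?_) h
      rw [hsm, hL.qb, hL.qc, ha₁]
    have hcc : ∀ (g : V × V) (ω : Ω), cc (g • ω) (bw F α g a) = cc ω a := by
      intro g ω
      have h := congrArg c.κ (hL.fr.2.1 g ω a₁)
      rw [hL.qc, hL.qc, hqbw, ha₁] at h
      exact h
    have hcX : ∀ g ∈ X, ∀ ω, cc (g • ω) a = cc ω a := by
      intro g hg ω
      have h := hcc g ω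
      rw [ha g hg] at h
      exact h
    refine ⟨∑ ω, s (cc ω a) • b' ω, ?_, ?_⟩
    · intro g hg
      rw [map_sum]
      have e : ∀ ω, bw R α' g (s (cc ω a) • b' ω) = s (cc (g • ω) a) • b' (g • ω) := by
        intro ω
        rw [map_smul, ← hL.fr.1 g ω, hcX g hg ω]
      rw [sum_congr rfl fun ω _ => e ω]
      exact Equiv.sum_comp (MulAction.toPerm g) (fun ω => s (cc ω a) • b' ω)
    · rw [map_sum]
      have e : ∀ ω, f.q (s (cc ω a) • b' ω) = cc ω a • b ω := by
        intro ω
        rw [hsm, hs, hL.qb]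
      rw [sum_congr rfl fun ω _ => e ω, hsum]
  refine ⟨h1, h2, ?_⟩
  -- (3)
  intro z₀ hz₀
  obtain ⟨u', hu'⟩ := h1
  obtain ⟨-, hCas⟩ := hCSU R V A' K α' lam' x' y' u' hL.rf hu'
  obtain ⟨hC1, hC2⟩ := hCas
  -- lift which commutes with V
  let X : Subgroup (V × V) := (MonoidHom.prod (MonoidHom.id V) (MonoidHom.id V)).range
  have hX : ∀ g : V, ((g, g) : V × V) ∈ X := fun g => ⟨g, rfl⟩
  have hz₀X : z₀ ∈ FxR (bw F α) X := by
    rintro _ ⟨g, rfl⟩
    show α g * (z₀ * α g⁻¹) = z₀
    rw [hz₀ (α g⁻¹), ← mul_assoc, ← map_mul, mul_inv_cancel, map_one, one_mul]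
  obtain ⟨z, hzX, hz⟩ := h2 X z₀ hz₀X
  have hzV : ∀ g : V, z * α' g = α' g * z := by
    intro g
    have h : α' g * (z * α' g⁻¹) = z := hzX (g, g) (hX g)
    calc z * α' g = (α' g * (z * α' g⁻¹)) * α' g := by rw [h]
      _ = α' g * z * (α' g⁻¹ * α' g) := by simp only [mul_assoc]
      _ = α' g * z := by rw [← map_mul, inv_mul_cancel, map_one, mul_one]
  have hπne : c.π ≠ 0 := by
    intro h
    have h3 := c.reg 1 (by rw [h, zero_mul])
    exact one_ne_zero h3
  have hinj : ∀ a a' : A', c.π • a = c.π • a' → a = a' := by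
    intro a a' h
    exact smul_right_injective A' hπne h
  have hex : ∀ a : A', ∃ d, z * a - a * z = c.π • d := by
    intro a
    apply f.ker
    rw [map_sub, map_mul, map_mul, hz, hz₀, sub_self]
  choose D hD using hex
  let Dl : A' →ₗ[R] A' :=
    { toFun := D
      map_add' := by
        intro a a'
        apply hinj
        rw [smul_add, ← hD, ← hD, ← hD, mul_add, add_mul]
        abel
      map_smul' := by
        intro r a
        apply hinj
        rw [RingHom.id_apply, smul_comm, ← hD, ← hD, mul_smul_comm, smul_mul_assoc, smul_sub] }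
  have hDm : ∀ a a', D (a * a') = D a * a' + a * D a' := by
    intro a a'
    apply hinj
    rw [smul_add, ← hD, ← smul_mul_assoc, ← hD, ← mul_smul_comm, ← hD, sub_mul, mul_sub]
    simp only [mul_assoc]
    abel
  have hDV : ∀ g : V, D (α' g) = 0 := by
    intro g
    apply hinj
    rw [← hD, hzV, sub_self, smul_zero]
  -- Casimir
  have hf := hC2 A' ((LinearMap.mul R A').compl₂ Dl) (by
    intro a g a'
    show a * α' g * D a' = a * D (α' g * a')
    rw [hDm, hDV, zero_mul, zero_add, mul_assoc])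
  have hs : ∀ a, a * ∑ i, x' i * D (y' i * u') = (∑ i, x' i * D (y' i * u')) * a + D a := by
    intro a
    have h : ∑ i, a * x' i * D (y' i * u') = ∑ i, x' i * D (y' i * u' * a) := hf a
    rw [mul_sum, sum_mul]
    calc ∑ i, a * (x' i * D (y' i * u')) = ∑ i, a * x' i * D (y' i * u') := by
          refine sum_congr rfl fun i _ => ?_
          rw [mul_assoc]
      _ = ∑ i, x' i * D (y' i * u' * a) := h
      _ = ∑ i, (x' i * D (y' i * u') * a + x' i * (y' i * u') * D a) := by
          refine sum_congr rfl fun i _ => ?_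
          rw [hDm, mul_add]
          simp only [mul_assoc]
      _ = ∑ i, x' i * D (y' i * u') * a + D a := by
          have h1' : ∑ i, x' i * (y' i * u') = 1 := hC1
          rw [sum_add_distrib, ← sum_mul, ← sum_mul, h1', one_mul, sum_mul]
  refine ⟨z + c.π • ∑ i, x' i * D (y' i * u'), ?_, ?_⟩
  · intro a
    have h := hs a
    have h4 : D a = a * (∑ i, x' i * D (y' i * u')) - (∑ i, x' i * D (y' i * u')) * a := by
      rw [h, add_sub_cancel_left]
    have h5 := hD a
    rw [h4, smul_sub] at h5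
    rw [add_mul, mul_add, smul_mul_assoc, mul_smul_comm]
    have h6 : z * a = a * z + (c.π • (a * ∑ i, x' i * D (y' i * u')) -
        c.π • ((∑ i, x' i * D (y' i * u')) * a)) := by
      rw [← h5]
      abel
    rw [h6]
    abel
  · rw [map_add, hz, hπ0, add_zero]

end Pool.Agent.PSS.H19
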